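import Mathlib

set_option autoImplicit false

namespace Pool.Agent.H.MP_23b914_co

open Finset

theorem signs {r N : ℕ} (hN : 0 < N) (m : ℕ) : ∀ (I : Finset ℕ) (v : ℕ → Fin r → ℝ), I.card = m →
    (∀ i l, |v i l| < 1) → ∃ c : ℕ → ℤ,
      (∀ i, c i = 1 ∨ c i = -1 ∨ (c i = 0 ∧ ¬∀ l, |v i l| < 1 / N)) ∧
      (I.filter fun i => c i = 0).card ≤ (2 * N) ^ r ∧
      ∀ l, |∑ i ∈ I, c i * v i l| ≤ 2 ^ r / N := by
  have N0 : (0 : ℝ) < N := by exact_mod_cast hN
  induction m with
  | zero =>
    intro I v h _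
    rw [card_eq_zero.1 h]
    exact ⟨1, fun _ => .inl rfl, by simp, fun _ => by simp; positivity⟩
  | succ m ih =>
    intro I v h hv
    by_cases inj : Set.InjOn (fun i l => ⌊N * v i l⌋) I
    · have key : ∀ (J : Finset ℕ) (n : ℕ), J ⊆ I → (∀ i ∈ J, ∀ l, |v i l| < n / N) →
          J.card ≤ (2 * n) ^ r := fun J n hJ hn => by
        refine (card_le_card_of_injOn (t := Fintype.piFinset fun _ => Ico (-n : ℤ) n) _
          (fun i hi => ?_) (inj.mono hJ)).trans_eq (by simp [show (n + n : ℤ).toNat = 2 * n by omega])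
        refine mem_coe.2 (Fintype.mem_piFinset.2 fun l => mem_Ico.2 ?_)
        have := abs_lt.1 (hn i hi l)
        rw [← neg_div, div_lt_iff₀ N0, lt_div_iff₀ N0] at this
        rw [Int.le_floor, Int.floor_lt]
        push_cast
        constructor <;> linarith
      refine ⟨fun i => if ∀ l, |v i l| < 1 / N then 1 else 0, fun i => ?_,
        key _ N (filter_subset _ _) fun i _ l => by rw [div_self N0.ne']; exact hv i l, fun l => ?_⟩
      · beta_reduce
        split_ifs with a
        exacts [.inl rfl, .inr (.inr ⟨rfl, a⟩)]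
      simp only [Int.cast_ite, Int.cast_one, Int.cast_zero, ite_mul, one_mul, zero_mul]
      rw [← sum_filter]
      refine (abs_sum_le_sum_abs _ _).trans ((sum_le_card_nsmul _ _ (1 / N : ℝ) fun i hi =>
        ((mem_filter.1 hi).2 l).le).trans ?_)
      have := key (I.filter fun i => ∀ l, |v i l| < 1 / N) 1 (filter_subset _ _)
        fun i hi => by simpa using (mem_filter.1 hi).2
      rw [nsmul_eq_mul, mul_one_div]
      gcongr
      exact_mod_cast this
    simp only [Set.InjOn, not_forall] at inj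
    obtain ⟨i, hi, j, hj, e, ij⟩ := inj
    have sm : ∀ l, |v i l - v j l| < 1 / N := fun l => by
      have := Int.abs_sub_lt_one_of_floor_eq_floor (congrFun e l)
      rwa [← mul_sub, abs_mul, abs_of_pos N0, mul_comm, ← lt_div_iff₀ N0] at this
    obtain ⟨c, c1, c2, c3⟩ := ih (I.erase j) (Function.update v i (v i - v j))
      (by rw [card_erase_of_mem hj, h]; rfl) fun k l => by
        by_cases a : k = i
        · subst a
          rw [Function.update_self]
          exact (sm l).trans_le (div_le_one_of_le₀ (by exact_mod_cast hN) N0.le)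
        · rw [Function.update_of_ne a]; exact hv k l
    have ci : c i = 1 ∨ c i = -1 := by
      rcases c1 i with a | a | a
      exacts [.inl a, .inr a, absurd (by simpa using sm) a.2]
    refine ⟨Function.update c j (-c i), fun k => ?_, le_trans (card_le_card fun k hk => ?_) c2,
      fun l => le_trans (le_of_eq (congrArg _ ?_)) (c3 l)⟩
    · by_cases a : k = j
      · subst a; rw [Function.update_self]; omega
      rw [Function.update_of_ne a]
      by_cases b : k = i
      · subst b; omega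
      · simpa only [Function.update_of_ne b] using c1 k
    · by_cases a : k = j
      · subst a
        have := (mem_filter.1 hk).2
        rw [Function.update_self] at this
        omega
      · simpa [a] using hk
    · have i' : i ∈ I.erase j := mem_erase.2 ⟨ij, hi⟩
      rw [← add_sum_erase _ _ (mem_coe.1 hj), ← add_sum_erase _ _ i', ← add_sum_erase _ _ i',
        Function.update_self, Function.update_self, Function.update_of_ne ij, ← add_assoc]
      refine congrArg₂ _ (by simp; ring) (sum_congr rfl fun k hk => ?_)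
      rw [Function.update_of_ne (ne_of_mem_erase hk),
        Function.update_of_ne (ne_of_mem_erase (mem_of_mem_erase hk))]

theorem bohr {r : ℕ} (α : Fin r → ℝ) {η : ℝ} (hη : 0 < η) : ∃ K : ℕ, ∀ (I : Finset ℕ) (W : ℕ → ℤ),
    ∃ c : ℕ → ℤ, (∀ i, c i = 1 ∨ c i = -1 ∨ c i = 0) ∧ (I.filter fun i => c i = 0).card ≤ K ∧
      ∀ l, ‖Complex.exp (2 * Real.pi * Complex.I * α l * (∑ i ∈ I, c i * W i : ℤ)) - 1‖ < η := by
  obtain ⟨N, hN⟩ := exists_nat_gt (2 * Real.pi * 2 ^ r / η)
  have N0 : (0 : ℝ) < N := lt_trans (by positivity) hN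
  refine ⟨(2 * N) ^ r, fun I W => ?_⟩
  obtain ⟨c, c1, c2, c3⟩ := signs (r := r) (Nat.cast_pos.1 N0) _ I
    (fun i l => Int.fract (α l * W i)) rfl fun i l => by
      rw [abs_of_nonneg (Int.fract_nonneg _)]; exact Int.fract_lt_one _
  refine ⟨c, fun i => by have := c1 i; tauto, c2, fun l => ?_⟩
  have e : α l * (∑ i ∈ I, c i * W i : ℤ) =
      ∑ i ∈ I, c i * Int.fract (α l * W i) + (∑ i ∈ I, c i * ⌊α l * W i⌋ : ℤ) := by
    push_cast
    rw [mul_sum, ← sum_add_distrib]
    exact sum_congr rfl fun i _ => by rw [← mul_add, Int.fract_add_floor]; ring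
  have := c3 l
  generalize ∑ i ∈ I, c i * Int.fract (α l * W i) = t at e this
  generalize ∑ i ∈ I, c i * ⌊α l * W i⌋ = n at e
  generalize ∑ i ∈ I, c i * W i = z at e
  have e' : (α l : ℂ) * z = t + n := by exact_mod_cast e
  rw [mul_assoc, e', mul_add, Complex.exp_add, mul_comm _ (n : ℂ), Complex.exp_int_mul_two_pi_mul_I,
    mul_one, show 2 * Real.pi * Complex.I * t = Complex.I * (2 * Real.pi * t : ℝ) by push_cast; ring]
  refine Real.norm_exp_I_mul_ofReal_sub_one_le.trans_lt ?_
  rw [Real.norm_eq_abs, abs_mul, abs_of_pos Real.two_pi_pos]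
  rw [div_lt_iff₀ hη] at hN
  refine (mul_le_mul_of_nonneg_left this Real.two_pi_pos.le).trans_lt ?_
  rw [← mul_div_assoc, div_lt_iff₀ N0]
  linarith

theorem cb (n : ℕ) : n.centralBinom ^ 2 * (2 * n + 1) ≤ 16 ^ n := by
  induction n with
  | zero => simp
  | succ n ih =>
    have := Nat.succ_mul_centralBinom_succ n
    refine Nat.le_of_mul_le_mul_left (c := (n + 1) ^ 2) ?_ (pow_pos n.succ_pos 2)
    rw [← mul_assoc, ← mul_pow, this, pow_succ 16]
    nlinarith [Nat.mul_le_mul_right (4 * (2 * n + 1) * (2 * n + 3)) ih, pow_pos (by decide : 0 < 16) n]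

theorem cb2 (y : ℕ) : ∃ n, y ≤ n ∧ y * n.centralBinom ≤ 4 ^ n := by
  refine ⟨y ^ 2, Nat.le_self_pow two_ne_zero y, (Nat.pow_le_pow_iff_left two_ne_zero).1 ?_⟩
  have := cb (y ^ 2)
  rw [← pow_mul 4, mul_comm _ 2, pow_mul 4, show 4 ^ 2 = 16 from rfl]
  nlinarith [Nat.zero_le (y ^ 2 * (y ^ 2).centralBinom ^ 2), Nat.zero_le ((y ^ 2).centralBinom ^ 2)]

def W : ℕ → ℕ
  | 0 => 1
  | k + 1 => W k * (2 * 2 ^ (k + 3) + 3)

theorem W_pos : ∀ k, 0 < W k
  | 0 => one_pos
  | k + 1 => mul_pos (W_pos k) (by positivity)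

theorem W_ge : ∀ k, k < W k
  | 0 => one_pos
  | k + 1 => by
    have := W_ge k
    have := Nat.zero_le (W k * 2 ^ (k + 3))
    rw [W]; nlinarith

theorem W_le : ∀ D, (2 ^ D + 1) * W D ≤ 2 ^ (D + 1) * (2 ^ D * ∏ k ∈ range D, 2 ^ (k + 3))
  | 0 => by simp [W]
  | D + 1 => by
    have := W_le D
    rw [W, prod_range_succ]
    simp only [pow_add] at this ⊢
    have := Nat.one_le_two_pow (n := D)
    generalize 2 ^ D = y at *
    nlinarith [Nat.mul_le_mul_right (32 * y) ‹_ * W D ≤ _›, Nat.mul_le_mul_right (W D) this]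

theorem W_bd (c : ℕ → ℤ) (h : ∀ k, |c k| ≤ 2 * 2 ^ (k + 3) + 2) :
    ∀ D, |∑ k ∈ range D, c k * W k| < W D
  | 0 => by simp [W]
  | D + 1 => by
    have := W_bd c h D
    have w : (0 : ℤ) < W D := by exact_mod_cast W_pos D
    rw [sum_range_succ, W]
    refine (abs_add_le _ _).trans_lt ?_
    rw [abs_mul, abs_of_pos w]
    push_cast
    nlinarith [h D]

theorem W_uniq (c : ℕ → ℤ) (h : ∀ k, |c k| ≤ 2 * 2 ^ (k + 3) + 2) :
    ∀ D, ∑ k ∈ range D, c k * W k = 0 → ∀ k < D, c k = 0
  | 0 => by simp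
  | D + 1 => fun e => by
    have := W_bd c h D
    have w : (0 : ℤ) < W D := by exact_mod_cast W_pos D
    rw [sum_range_succ] at e
    have z : c D = 0 := by
      rw [eq_neg_of_add_eq_zero_left e, abs_neg, abs_mul, abs_of_pos w] at this
      exact Int.abs_lt_one_iff.1 (by nlinarith)
    rw [z, zero_mul, add_zero] at e
    intro k hk
    rcases Nat.lt_succ_iff_lt_or_eq.1 hk with a | a
    exacts [W_uniq c h D e k a, a ▸ z]

end Pool.Agent.H.MP_23b914_co
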