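import Mathlib
import Pool.Agent.H.MP_23b914_co.A

set_option autoImplicit false

namespace Pool.Agent.H.MP_23b914_co

open Finset

noncomputable def n (j : ℕ) : ℕ := (cb2 ((2 * j + 1) * 2 ^ (j + 2))).choose

theorem n_gt (j : ℕ) : j < n j := by
  have := (cb2 ((2 * j + 1) * 2 ^ (j + 2))).choose_spec.1
  have := Nat.one_le_two_pow (n := j + 2)
  rw [n]; nlinarith

noncomputable def s (j : ℕ) : ℕ := ∑ i ∈ range j, 2 * n i

theorem s_mono : Monotone s := fun _ _ h => sum_le_sum_of_subset (range_mono h)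

theorem s_ge (j : ℕ) : j ≤ s j := by
  simpa [s] using card_nsmul_le_sum (range j) (fun i => 2 * n i) 1 fun i _ => by
    have := n_gt i; omega

noncomputable def I (j : ℕ) : Finset ℕ := Ico (s j) (s (j + 1))

theorem I_card (j : ℕ) : (I j).card = 2 * n j := by simp [I, s, sum_range_succ]

noncomputable def o (a : ℕ → ℕ) (j : ℕ) : ℕ := ∑ k ∈ I j, a k % 2

def Rep (σ : ℕ) : Set ℤ := {x | ∃ (D : ℕ) (a : ℕ → ℕ), (∀ k, a k < 2 * 2 ^ (k + 3)) ∧
  (∀ k, D ≤ k → a k = 0) ∧ (∀ j, o a j + j < n j ∨ n j + j < o a j) ∧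
  {j | n j < o a j}.ncard % 2 = σ ∧ x = ∑ k ∈ range D, (a k : ℤ) * W k}

theorem o_zero {a : ℕ → ℕ} {j : ℕ} (h : ∀ k, s j ≤ k → a k = 0) : o a j = 0 :=
  sum_eq_zero fun k hk => by simp [h k (mem_Ico.1 hk).1]

theorem avoid (σ j : ℕ) (c : ℕ → ℤ) (c1 : ∀ i, c i = 1 ∨ c i = -1 ∨ c i = 0)
    (c2 : ((I j).filter fun i => c i = 0).card ≤ j) (F : Finset ℕ) {x y : ℤ} (hx : x ∈ Rep σ)
    (hy : y ∈ Rep σ) : ∑ i ∈ I j, c i * W i ≠ x - y + ∑ i ∈ F, 2 * (W i : ℤ) := by
  obtain ⟨D, a, a1, a2, a3, a4, rfl⟩ := hx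
  obtain ⟨E, b, b1, b2, b3, b4, rfl⟩ := hy
  intro e
  have g : ∀ k, (a k : ℤ) - b k + (if k ∈ F then 2 else 0) - (if k ∈ I j then c k else 0) = 0 := by
    intro k
    obtain ⟨M, hM⟩ := (F ∪ I j ∪ range D ∪ range E ∪ {k}).exists_nat_subset_range
    simp only [union_subset_iff, singleton_subset_iff, mem_range] at hM
    obtain ⟨⟨⟨⟨m1, m2⟩, m3⟩, m4⟩, m5⟩ := hM
    refine W_uniq (fun k => (a k : ℤ) - b k + (if k ∈ F then 2 else 0) -
      (if k ∈ I j then c k else 0)) (fun k => ?_) M ?_ k m5
    · have := a1 k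
      have := b1 k
      have := c1 k
      zify at *
      rw [abs_le]
      split_ifs <;> omega
    rw [sum_subset m3 fun k _ h => by simp [a2 k (by simpa using h)],
      sum_subset m4 fun k _ h => by simp [b2 k (by simpa using h)]] at e
    simp only [sub_mul, add_mul, sum_sub_distrib, sum_add_distrib, ite_mul, zero_mul,
      sum_ite_mem, inter_eq_right.2 m1, inter_eq_right.2 m2]
    linarith
  have e1 : ∀ i, i ≠ j → o a i = o b i := fun i ij => sum_congr rfl fun k hk => by
    have := g k
    rw [if_neg (c := k ∈ I j) fun h => ?_] at this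
    · split_ifs at this <;> omega
    simp only [I, mem_Ico] at hk h
    rcases lt_or_gt_of_ne ij with l | l <;> have := s_mono (Nat.succ_le_of_lt l) <;>
      simp only [Nat.succ_eq_add_one] at this <;> omega
  have e2 : 2 * n j ≤ o a j + o b j + j ∧ o a j + o b j ≤ 2 * n j + j := by
    rw [card_filter] at c2
    rw [← I_card, card_eq_sum_ones, o, o, ← sum_add_distrib]
    refine ⟨le_trans ?_ (Nat.add_le_add_left c2 _), le_trans ?_ (Nat.add_le_add_left c2 _)⟩ <;>
    · rw [← sum_add_distrib]
      refine sum_le_sum fun k hk => ?_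
      have := g k
      have := c1 k
      simp only [hk, if_true] at *
      split_ifs at * <;> omega
  have key : ∀ (a b : ℕ → ℕ) (E : ℕ), (∀ k, E ≤ k → b k = 0) → (∀ i, i ≠ j → o a i = o b i) →
      n j < o a j → ¬n j < o b j → {j | n j < o a j}.ncard = {j | n j < o b j}.ncard + 1 := by
    intro a b E b2 e1 h1 h2
    rw [← Set.ncard_insert_of_notMem (a := j) h2 ((Set.finite_lt_nat E).subset fun i hi => by
      by_contra h
      rw [Set.mem_ofPred_eq, o_zero fun k hk => b2 k (((not_lt.1 h).trans (s_ge i)).trans hk)] at hi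
      omega)]
    refine congrArg _ (Set.ext fun i => ?_)
    by_cases z : i = j
    · simp [z, h1]
    · simp [z, e1 i z]
  have := a3 j
  have := b3 j
  by_cases h : n j < o a j
  · have := key a b E b2 e1 h (by omega); omega
  · have := key b a D a2 (fun i h => (e1 i h).symm) (by omega) h; omega

theorem bad (D j : ℕ) (h : I j ⊆ range D) : ((((range D).powerset.filter fun T =>
    (T ∩ I j).card ∈ Icc (n j - j) (n j + j)).card : ℝ)) ≤ 2 ^ D / 4 * (1 / 2) ^ j := by
  have a : ((range D).powerset.filter fun T => (T ∩ I j).card ∈ Icc (n j - j) (n j + j)).card ≤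
      (2 * j + 1) * (n j).centralBinom * 2 ^ (D - 2 * n j) := by
    refine (card_le_card_of_injOn (fun T => (T ∩ I j, T \ I j)) (t :=
      ((Icc (n j - j) (n j + j)).biUnion fun i => (I j).powersetCard i) ×ˢ (range D \ I j).powerset)
      (fun T hT => ?_) fun T _ U _ e => ?_).trans ?_
    · simp only [coe_filter, mem_powerset, Set.mem_ofPred_eq] at hT
      exact mem_coe.2 (mem_product.2 ⟨mem_biUnion.2 ⟨_, hT.2, mem_powersetCard.2
        ⟨inter_subset_right, rfl⟩⟩, mem_powerset.2 (sdiff_subset_sdiff hT.1 le_rfl)⟩)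
    · rw [← sdiff_union_inter T (I j), ← sdiff_union_inter U (I j), (Prod.mk.inj e).1,
        (Prod.mk.inj e).2]
    rw [card_product, card_powerset, card_sdiff_of_subset h, card_range, I_card]
    refine Nat.mul_le_mul_right _ ((card_biUnion_le_card_mul _ _ _ fun i _ => ?_).trans
      (Nat.mul_le_mul_right _ (by rw [Nat.card_Icc]; omega)))
    rw [card_powersetCard, I_card]
    exact Nat.choose_le_centralBinom _ _
  have b : (2 * j + 1) * 2 ^ (j + 2) * (n j).centralBinom ≤ 4 ^ n j :=
    (cb2 ((2 * j + 1) * 2 ^ (j + 2))).choose_spec.2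
  have c : 2 ^ D = 4 ^ n j * 2 ^ (D - 2 * n j) := by
    have := card_le_card h
    rw [I_card, card_range] at this
    rw [show 4 = 2 ^ 2 from rfl, ← pow_mul, ← pow_add, Nat.add_sub_cancel' this]
  have d := (Nat.mul_le_mul_right (2 ^ (j + 2)) a).trans
    (((mul_right_comm _ _ _).le.trans (Nat.mul_le_mul_right _ ((mul_right_comm _ _ _).le.trans
      b))).trans c.ge)
  rw [one_div, inv_pow, ← div_eq_mul_inv, div_div, le_div_iff₀ (by positivity)]
  rw [pow_add, mul_comm (2 ^ j)] at d
  exact_mod_cast d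

theorem many (J : ℕ) : W (s J) ≤ 4 * ((Rep 0 ∪ Rep 1) ∩ Set.Ioc (-1) (-1 + W (s J))).ncard := by
  set D := s J with hD
  set G := (range D).powerset.filter fun T => ∀ j < J, (T ∩ I j).card ∉ Icc (n j - j) (n j + j)
  have g : 2 ^ D ≤ 2 * G.card := by
    have a : (range D).powerset ⊆ G ∪ (range J).biUnion fun j => (range D).powerset.filter fun T =>
        (T ∩ I j).card ∈ Icc (n j - j) (n j + j) := fun T hT => by
      simp only [G, mem_union, mem_filter, mem_biUnion, hT, true_and, mem_range]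
      by_contra h
      push Not at h
      obtain ⟨j, h1, h2⟩ := h.1
      exact h.2 j h1 h2
    have b := (card_le_card a).trans ((card_union_le _ _).trans (Nat.add_le_add_left card_biUnion_le _))
    rw [card_powerset, card_range] at b
    have c := sum_le_sum (s := range J) fun j hj => bad D j fun k hk => mem_range.2
      ((mem_Ico.1 hk).2.trans_le (s_mono (mem_range.1 hj)))
    rw [← mul_sum] at c
    have d := mul_le_mul_of_nonneg_left (sum_geometric_two_le J) (by positivity : (0 : ℝ) ≤ 2 ^ D / 4)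
    rify at b ⊢
    linarith
  let a : (Fin D → ℕ) × Finset ℕ → ℕ → ℕ := fun z k =>
    if h : k < D then 2 * z.1 ⟨k, h⟩ + if k ∈ z.2 then 1 else 0 else 0
  let S := (Fintype.piFinset fun k : Fin D => range (2 ^ (k.1 + 3))) ×ˢ G
  have a1 : ∀ z ∈ S, ∀ k, a z k < 2 * 2 ^ (k + 3) := fun z hz k => by
    simp only [a]
    by_cases h : k < D
    · have : _ < 2 ^ (k + 3) := mem_range.1 (Fintype.mem_piFinset.1 (mem_product.1 hz).1 ⟨k, h⟩)
      rw [dif_pos h]
      split_ifs <;> omega
    · rw [dif_neg h]; positivity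
  have c : S.card ≤ ((Rep 0 ∪ Rep 1) ∩ Set.Ioc (-1) (-1 + W D)).ncard := by
    rw [← Set.ncard_coe_finset]
    refine Set.ncard_le_ncard_of_injOn (fun z => ∑ k ∈ range D, (a z k : ℤ) * W k)
      (fun z hz => ⟨?_, ?_⟩) (fun z hz y hy e => ?_) ((Set.finite_Ioc _ _).inter_of_right _)
    · have a2 : ∀ k, D ≤ k → a z k = 0 := fun k hk => dif_neg (not_lt.2 hk)
      have a3 : ∀ j, o (a z) j + j < n j ∨ n j + j < o (a z) j := fun j => by
        have := n_gt j
        by_cases h : j < J
        · have t := (mem_filter.1 (mem_product.1 hz).2).2 j h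
          have : o (a z) j = (z.2 ∩ I j).card := by
            rw [inter_comm, ← filter_mem_eq_inter, card_filter]
            refine sum_congr rfl fun k hk => ?_
            have : k < D := (mem_Ico.1 hk).2.trans_le (s_mono h)
            simp only [a, dif_pos this]
            split_ifs <;> omega
          rw [mem_Icc] at t
          omega
        · rw [o_zero fun k hk => a2 k ((s_mono (not_lt.1 h)).trans hk)]; omega
      rcases Nat.mod_two_eq_zero_or_one {j | n j < o (a z) j}.ncard with h | h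
      exacts [.inl ⟨D, _, a1 z hz, a2, a3, h, rfl⟩, .inr ⟨D, _, a1 z hz, a2, a3, h, rfl⟩]
    · have := W_bd (fun k => a z k) (fun k => by
        have := a1 z hz k
        zify at this
        rw [Nat.abs_cast]; omega) D
      have p : 0 ≤ ∑ k ∈ range D, (a z k : ℤ) * W k := by positivity
      rw [abs_of_nonneg p] at this
      exact ⟨by omega, by omega⟩
    · have u := W_uniq (fun k => a z k - a y k) (fun k => by
        have := a1 z hz k
        have := a1 y hy k
        zify at *
        rw [abs_le]; omega) D (by simpa only [sub_mul, sum_sub_distrib, sub_eq_zero] using e)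
      have v : ∀ k (h : k < D), z.1 ⟨k, h⟩ = y.1 ⟨k, h⟩ ∧ (k ∈ z.2 ↔ k ∈ y.2) := fun k h => by
        have := u k h
        simp only [a, dif_pos h] at this
        split_ifs at this with p q q <;> simp only [p, q, true_iff, false_iff, not_true,
          and_true, and_false] <;> omega
      have w : ∀ z ∈ S, ∀ k ∈ z.2, k < D := fun z hz k hk =>
        mem_range.1 (mem_powerset.1 (mem_filter.1 (mem_product.1 hz).2).1 hk)
      exact Prod.ext (funext fun k => (v k k.2).1) (Finset.ext fun k =>
        ⟨fun h => (v k (w z hz k h)).2.1 h, fun h => (v k (w y hy k h)).2.2 h⟩)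
  rw [card_product, Fintype.card_piFinset] at c
  simp only [card_range] at c
  rw [Fin.prod_univ_eq_prod_range (fun k => 2 ^ (k + 3))] at c
  have := W_le D
  rw [pow_succ] at this
  generalize ∏ k ∈ range D, 2 ^ (k + 3) = P at *
  have e : 2 ^ D * W D ≤ 2 ^ D * (2 * (2 ^ D * P)) := by nlinarith [Nat.zero_le (W D)]
  have := Nat.le_of_mul_le_mul_left e (by positivity)
  nlinarith [Nat.mul_le_mul_right P g]

end Pool.Agent.H.MP_23b914_co
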